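import Pool.Agent.Y719.NG.Iff

/-!
# The modulus of `L(R, s)` on the edge decides whether `R` is automorphic

Let `K` be a CM field which is Galois over `ℚ`, or any number field which is Galois over `ℚ`, and `R` an
irreducible `p`-adic representation of `G_K` of dimension `m`.  Let `W` be a semisimple representation
of the same dimension, for example the representation `ρ_π` attached to an algebraic essentially
conjugate self-dual cuspidal automorphic representation `π` of `GL_m` over `K`.  The following are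
equivalent: `R` is isomorphic to `W ∘ (conjugation by σ)` for some automorphism `σ` of the algebraic
closure of `K`, that is `R ≅ ρ_{π'}` for a `Gal(K/ℚ)`-conjugate `π'` of `π`, which is again algebraic,
essentially conjugate self-dual and cuspidal; `L(R, s)` and `L(π, s)` agree as functions of `s`; the
absolute values of their boundary values on the edge of absolute convergence agree almost everywhere;
the logarithm of the quotient of the absolute values is concentrated, for example constant on a set of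
positive upper density.  So one positive function on a line, with no phase and no twist, decides
whether `R` is automorphic.
-/

set_option autoImplicit false

namespace Pool.Agent.Results.MP_adf543_nt.ModulusDecidesAutomorphy

open NumberField IsDedekindDomain MeasureTheory Filter Topology Polynomial

section
variable {K : Type} [Field K] [NumberField K] {p : ℕ} [Fact p.Prime] {n : ℕ}

/-- `g` is a Frobenius element at `v`: for some maximal ideal `Q` above `v` of the ring of all
algebraic integers, `g x ≡ x ^ N(v)` modulo `Q` for all `x`. -/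
def Frobenius (v : HeightOneSpectrum (𝓞 K)) (g : Gal(AlgebraicClosure K/K)) : Prop :=
  ∃ Q : Ideal (𝓞 (AlgebraicClosure K)), Q.IsMaximal ∧
    Q.comap (algebraMap (𝓞 K) (𝓞 (AlgebraicClosure K))) = v.asIdeal ∧
    ∀ x : 𝓞 (AlgebraicClosure K), g • x - x ^ Ideal.absNorm v.asIdeal ∈ Q

/-- `g` lies in an inertia group at `v`: for some maximal ideal `Q` above `v` of the ring of all
algebraic integers, `g x ≡ x` modulo `Q` for all `x`. -/
def Inertia (v : HeightOneSpectrum (𝓞 K)) (g : Gal(AlgebraicClosure K/K)) : Prop :=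
  ∃ Q : Ideal (𝓞 (AlgebraicClosure K)), Q.IsMaximal ∧
    Q.comap (algebraMap (𝓞 K) (𝓞 (AlgebraicClosure K))) = v.asIdeal ∧
    ∀ x : 𝓞 (AlgebraicClosure K), g • x - x ∈ Q

/-- The matrix of `g`. -/
noncomputable def matrix (ρ : Gal(AlgebraicClosure K/K) →* GL (Fin n) (PadicAlgCl p))
    (g : Gal(AlgebraicClosure K/K)) : Matrix (Fin n) (Fin n) (PadicAlgCl p) :=
  (ρ g : GL (Fin n) (PadicAlgCl p))

/-- `W` is a stable subspace. -/
def Stable (ρ : Gal(AlgebraicClosure K/K) →* GL (Fin n) (PadicAlgCl p))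
    (W : Submodule (PadicAlgCl p) (Fin n → PadicAlgCl p)) : Prop :=
  ∀ g, ∀ x ∈ W, (matrix ρ g).mulVec x ∈ W

/-- `ρ` is irreducible. -/
def Irreducible (ρ : Gal(AlgebraicClosure K/K) →* GL (Fin n) (PadicAlgCl p)) : Prop :=
  0 < n ∧ ∀ W, Stable ρ W → W = ⊥ ∨ W = ⊤

/-- `ρ` is semisimple: every stable subspace has a stable complement. -/
def Semisimple (ρ : Gal(AlgebraicClosure K/K) →* GL (Fin n) (PadicAlgCl p)) : Prop :=
  ∀ W, Stable ρ W → ∃ W', Stable ρ W' ∧ IsCompl W W'

/-- `v` lies above a prime number in `S`. -/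
def Bad (S : Finset ℕ) (v : HeightOneSpectrum (𝓞 K)) : Prop :=
  ∃ q ∈ S, (q : 𝓞 K) ∈ v.asIdeal

/-- `P` is the family of Euler factors of `ρ` away from `S`, and `ρ` has weights at most `w`: `P_v` is
`1` for `v` above `S`; for all other `v` the representation is unramified and `P_v` is
`det(1 - X ρ(g⁻¹))` for the Frobenius elements `g` at `v`, with coefficients mapped to `ℂ` by `ι`;
the inverse roots of `P_v` are at most `Nv^{w/2}` in absolute value. -/
structure EulerFactors (S : Finset ℕ) (w : ℝ) (ι : PadicAlgCl p →+* ℂ)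
    (ρ : Gal(AlgebraicClosure K/K) →* GL (Fin n) (PadicAlgCl p))
    (P : HeightOneSpectrum (𝓞 K) → ℂ[X]) : Prop where
  bad : ∀ v, Bad S v → P v = 1
  unramified : ∀ v, ¬ Bad S v → ∀ g, Inertia v g → ρ g = 1
  frobenius : ∀ v, ¬ Bad S v → ∀ g, Frobenius v g → (matrix ρ g⁻¹).charpolyRev.map ι = P v
  weight : ∀ v, ∀ z : ℂ, (P v).eval z = 0 →
    (Ideal.absNorm v.asIdeal : ℝ) ^ (-(w / 2)) ≤ ‖z‖

/-- The Euler product `∏_v P_v(Nv^{-s})⁻¹`. -/
noncomputable def L (P : HeightOneSpectrum (𝓞 K) → ℂ[X]) (s : ℂ) : ℂ :=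
  ∏' v : HeightOneSpectrum (𝓞 K), ((P v).eval ((Ideal.absNorm v.asIdeal : ℂ) ^ (-s)))⁻¹

/-- The limit of `|L(w/2 + 1 + σ + iτ)|` for `σ → 0`, `σ > 0`. -/
noncomputable def edgeAbs (w : ℝ) (P : HeightOneSpectrum (𝓞 K) → ℂ[X]) (τ : ℝ) : ℝ :=
  limUnder (𝓝[>] (0 : ℝ)) fun σ : ℝ => ‖L P (((w / 2 + 1 : ℝ) : ℂ) + σ + τ * Complex.I)‖

/-- `g' = σ g σ⁻¹`. -/
def Conj (σ : AlgebraicClosure K ≃+* AlgebraicClosure K) (g g' : Gal(AlgebraicClosure K/K)) : Prop :=
  ∀ x, g' (σ x) = σ (g x)

end

/-- The values of `f` are concentrated: there is `δ > 0` such that for every `ε > 0` there are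
arbitrarily large `T` and a real number `x` with `|f - x| < ε` on a subset of `(0, T]` of measure at
least `δ T`. -/
def Concentrated (f : ℝ → ℝ) : Prop :=
  ∃ δ : ℝ, 0 < δ ∧ ∀ ε : ℝ, 0 < ε → ∃ᶠ T : ℝ in atTop, ∃ x : ℝ,
    ENNReal.ofReal (δ * T) ≤ volume {τ | τ ∈ Set.Ioc 0 T ∧ |f τ - x| < ε}

/-- **One modulus on the edge decides automorphy.**  Let `K` be a number field, Galois over `ℚ`, for
example a Galois CM field, `R` an irreducible and `W` a semisimple `p`-adic representation of `G_K` of
dimension `m`, both unramified away from `S` and with Euler factors `P` and `Q` of weight at most `w`,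
for example `W = ρ_π` with the Euler factors `Q` of `L(π, s)`.  The following are equivalent.

1. `R` is isomorphic to `g ↦ W(σ g σ⁻¹)` for some automorphism `σ` of the algebraic closure of `K`, for
  example to `ρ_{π'}` for a `Gal(K/ℚ)`-conjugate `π'` of `π`.
2. The Euler products agree as functions of `s`.
3. The absolute values of their boundary values on the line `Re s = w/2 + 1` are equal almost
  everywhere.
4. The logarithm of the quotient of these absolute values is concentrated. -/
theorem result (K : Type) [Field K] [NumberField K] [IsGalois ℚ K] (p : ℕ) [Fact p.Prime]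
    (ι : PadicAlgCl p →+* ℂ) (S : Finset ℕ) (hS : ∀ q ∈ S, q.Prime) (w : ℝ) (m : ℕ)
    (R W : Gal(AlgebraicClosure K/K) →* GL (Fin m) (PadicAlgCl p)) (hR : Continuous R)
    (hW : Continuous W) (hirr : Irreducible R) (hss : Semisimple W)
    (P Q : HeightOneSpectrum (𝓞 K) → ℂ[X]) (hP : EulerFactors S w ι R P)
    (hQ : EulerFactors S w ι W Q) :
    List.TFAE
      [∃ σ : AlgebraicClosure K ≃+* AlgebraicClosure K, ∃ A : GL (Fin m) (PadicAlgCl p),
          ∀ g g', Conj σ g g' → W g' = A * R g * A⁻¹,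
       ∀ s, L P s = L Q s,
       ∀ᵐ τ : ℝ, edgeAbs w P τ = edgeAbs w Q τ,
       Concentrated fun τ => Real.log (edgeAbs w P τ) - Real.log (edgeAbs w Q τ)] := by
  classical
  have hconj : ∀ (σ : AlgebraicClosure K ≃+* AlgebraicClosure K)
      (g g' : Gal(AlgebraicClosure K/K)), Conj σ g g' ↔ g' = Pool.Agent.Y719.NG.cj σ g := by
    intro σ g g'
    constructor
    · intro h
      apply AlgEquiv.ext
      intro x
      have h1 := h (σ.symm x)
      rw [RingEquiv.apply_symm_apply] at h1
      exact h1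
    · rintro rfl x
      rw [Pool.Agent.Y719.NG.cj_apply, RingEquiv.symm_apply_apply]
  have hL : ∀ (P : HeightOneSpectrum (𝓞 K) → ℂ[X]) (s : ℂ),
      Pool.Agent.Y719.EL.N.LS P (fun _ => 1) s = L P s := by
    intro P s
    unfold Pool.Agent.Y719.EL.N.LS L
    refine tprod_congr fun v => ?_
    rw [one_mul]
    rfl
  have he : ∀ (P : HeightOneSpectrum (𝓞 K) → ℂ[X]) (τ : ℝ),
      Pool.Agent.Y719.EL.N.eA w P (fun _ => 1) τ = edgeAbs w P τ := by
    intro P τ
    unfold Pool.Agent.Y719.EL.N.eA edgeAbs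
    simp_rw [hL]
  have hF : ∀ {N : ℕ} (W : Gal(AlgebraicClosure K/K) →* GL (Fin N) (PadicAlgCl p))
      (R : HeightOneSpectrum (𝓞 K) → ℂ[X]), EulerFactors S w ι W R →
      Pool.Agent.Y719.NG.Fac S w ι W R := fun W R h =>
    ⟨h.bad, fun v hv => ⟨h.unramified v hv, h.frobenius v hv⟩, h.weight⟩
  have h1 := Pool.Agent.Y719.NG.two hS (hF R P hP) (hF W Q hQ) hR hW hirr hss
  have e1 : (∃ σ : AlgebraicClosure K ≃+* AlgebraicClosure K, ∃ A : GL (Fin m) (PadicAlgCl p),
        ∀ g, W (Pool.Agent.Y719.NG.cj σ g) = A * R g * A⁻¹) ↔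
      ∃ σ : AlgebraicClosure K ≃+* AlgebraicClosure K, ∃ A : GL (Fin m) (PadicAlgCl p),
          ∀ g g', Conj σ g g' → W g' = A * R g * A⁻¹ := by
    constructor
    · rintro ⟨σ, A, h⟩
      refine ⟨σ, A, fun g g' hg => ?_⟩
      rw [(hconj σ g g').1 hg]
      exact h g
    · rintro ⟨σ, A, h⟩
      exact ⟨σ, A, fun g => h g _ ((hconj σ g _).2 rfl)⟩
  rw [e1] at h1
  simp_rw [he, hL] at h1
  exact h1

end Pool.Agent.Results.MP_adf543_nt.ModulusDecidesAutomorphy
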