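import Pool.Agent.Y802.MO.Fin3
import Pool.Agent.Y903.MO.Res
import Pool.Agent.Y406.MO.Cha

/-!
# Multiplicity one for Galois representations on a sparse set of primes

Let `f` be any function. There is a sequence `T` of prime numbers, growing faster than prescribed by `f`,
and a totally real field `L` of infinite degree, Galois and unramified at all finite places over a real
quadratic field `k`, in which all the primes `T i` split completely, with the following property. Let `K`
be a number field (for example a CM field), `p` a prime number, `R` and `W` continuous representations of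
`G_K` over the algebraic closure of `ℚ_p`, unramified outside finite sets of primes; for example `W = ρ_π`
for an automorphic representation `π`.

* The characteristic polynomials of `R` divide those of `W` on an open subgroup if and only if, for all
  Frobenius elements `σ` of `G_K` at almost all `T i`, the characteristic polynomial of `R(σ)^a` divides
  that of `W(σ)^a` for some `a > 0`, which may depend on `σ`.
* If this is the case and `R` is irreducible, then `R` is trivial on the kernel of `W` in an open subgroup.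
* If `R` and `W` are semisimple and have the same dimension, then this holds if and only if `R` and `W`
  are isomorphic on an open subgroup.
* If `R` is irreducible on all open subgroups and `W` has the same dimension, then this holds if and only
  if `W` is isomorphic to the twist of `R` by a character of finite order.

Blocks of the proof: helpers 273 (Burnside and Schur), 427 (powers of matrices over valuation rings), 528
(integral models), 903 (Clifford), 406 and 410 (Brauer and Nesbitt).
-/

set_option autoImplicit false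

namespace Pool.Agent.Results.MP_adf543_nt.SparseMultiplicityOne

open NumberField IntermediateField Module

attribute [local instance 10] DivisionRing.toRatAlgebra

/-- the absolute Galois group of `ℚ` -/
abbrev GQ : Type := Gal(AlgebraicClosure ℚ/ℚ)

/-- the ring of all algebraic integers -/
abbrev ZBar : Type := 𝓞 (AlgebraicClosure ℚ)

/-- `τ` lies in the inertia group at the maximal ideal `P` of the ring of all algebraic integers -/
def Inertia (P : Ideal ZBar) (τ : GQ) : Prop := ∀ x : ZBar, τ • x - x ∈ P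

/-- `σ` is a (geometric) Frobenius element at the maximal ideal `P` above the prime number `q`: it induces
the inverse of `x ↦ x ^ q` on the residue field -/
def Frobenius (q : ℕ) (P : Ideal ZBar) (σ : GQ) : Prop := ∀ x : ZBar, x - (σ • x) ^ q ∈ P

/-- `L` is a totally real Galois extension of infinite degree of the real quadratic field `k`, unramified at
all finite places, and a union of finite extensions of `ℚ` whose degrees are powers of two -/
structure UnramifiedTower (k L : IntermediateField ℚ (AlgebraicClosure ℚ)) : Prop where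
  quadratic : finrank ℚ k = 2 ∧ ∃ s ∈ k,
    s ^ 2 = ((17 * 41 * 73 * 89 * 97 * 113 * 137 * 193 * 233 * 241 : ℕ) : AlgebraicClosure ℚ)
  le : k ≤ L
  infinite : ¬ FiniteDimensional ℚ L
  galois : ∀ σ : GQ, (∀ x ∈ k, σ x = x) → ∀ y ∈ L, σ y ∈ L
  unramified : ∀ q : ℕ, q.Prime → ∀ P : Ideal ZBar, P.IsMaximal → (q : ZBar) ∈ P → ∀ τ : GQ,
    (∀ x ∈ k, τ x = x) → Inertia P τ → ∀ y ∈ L, τ y = y
  real : ∀ (φ : L →+* ℂ) (y : L), (φ y).im = 0
  two : ∀ y ∈ L, ∃ m : ℕ, finrank ℚ ℚ⟮y⟯ = 2 ^ m

/-- the prime number `q` is unramified and splits completely in `L`: all inertia elements and all Frobenius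
elements above `q` fix `L` -/
def SplitsCompletely (q : ℕ) (L : IntermediateField ℚ (AlgebraicClosure ℚ)) : Prop :=
  ∀ P : Ideal ZBar, P.IsMaximal → (q : ZBar) ∈ P → ∀ σ : GQ, Inertia P σ ∨ Frobenius q P σ →
    ∀ y ∈ L, σ y = y

section rep

variable {K : IntermediateField ℚ (AlgebraicClosure ℚ)} {p : ℕ} [Fact p.Prime] {m m' : ℕ}

/-- the matrix of `g` -/
noncomputable def mat (R : K.fixingSubgroup →* GL (Fin m) (PadicAlgCl p)) (g : K.fixingSubgroup) :
    Matrix (Fin m) (Fin m) (PadicAlgCl p) := (R g : GL (Fin m) (PadicAlgCl p))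

/-- `R` is unramified outside a finite set of primes -/
def AlmostUnramified (R : K.fixingSubgroup →* GL (Fin m) (PadicAlgCl p)) : Prop :=
  ∃ S : Finset ℕ, ∀ q : ℕ, q.Prime → q ∉ S → ∀ P : Ideal ZBar, P.IsMaximal → (q : ZBar) ∈ P →
    ∀ τ : K.fixingSubgroup, Inertia P τ → R τ = 1

/-- for all Frobenius elements `σ` at the places of `K` of degree one above almost all `T i` the
characteristic polynomial of some positive power of the matrix `R σ` divides the one of the same power
of `W σ` (for representations of the same dimension: is equal to it) -/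
def PowersDivide (T : ℕ → ℕ) (R : K.fixingSubgroup →* GL (Fin m) (PadicAlgCl p))
    (W : K.fixingSubgroup →* GL (Fin m') (PadicAlgCl p)) : Prop :=
  ∃ i₀ : ℕ, ∀ i ≥ i₀, ∀ P : Ideal ZBar, P.IsMaximal → (T i : ZBar) ∈ P →
    ∀ σ : K.fixingSubgroup, Frobenius (T i) P σ →
      ∃ a : ℕ, 0 < a ∧ (mat R σ ^ a).charpoly ∣ (mat W σ ^ a).charpoly

/-- the subspace `V` is stable under the elements of the subgroup `U` -/
def Stable (U : Subgroup K.fixingSubgroup) (R : K.fixingSubgroup →* GL (Fin m) (PadicAlgCl p))
    (V : Submodule (PadicAlgCl p) (Fin m → PadicAlgCl p)) : Prop :=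
  ∀ g ∈ U, ∀ x ∈ V, (mat R g).mulVec x ∈ V

/-- `R` is irreducible on the subgroup `U` -/
def Irreducible (U : Subgroup K.fixingSubgroup)
    (R : K.fixingSubgroup →* GL (Fin m) (PadicAlgCl p)) : Prop :=
  0 < m ∧ ∀ V, Stable U R V → V = ⊥ ∨ V = ⊤

/-- `R` is semisimple: every stable subspace has a stable complement -/
def Semisimple (R : K.fixingSubgroup →* GL (Fin m) (PadicAlgCl p)) : Prop :=
  ∀ V, Stable ⊤ R V → ∃ V', Stable ⊤ R V' ∧ IsCompl V V'

/-- `R` and `W` are isomorphic on an open subgroup, that is, over a finite extension of `K` -/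
def PotentiallyIsomorphic (R W : K.fixingSubgroup →* GL (Fin m) (PadicAlgCl p)) : Prop :=
  ∃ U : Subgroup K.fixingSubgroup, IsOpen (U : Set K.fixingSubgroup) ∧
    ∃ Q : GL (Fin m) (PadicAlgCl p), ∀ g ∈ U, W g = Q * R g * Q⁻¹

/-- `W` is isomorphic to the twist of `R` by a character `δ` of finite order -/
def FiniteOrderTwist (R W : K.fixingSubgroup →* GL (Fin m) (PadicAlgCl p)) : Prop :=
  ∃ (Q : GL (Fin m) (PadicAlgCl p)) (δ : K.fixingSubgroup →* (PadicAlgCl p)ˣ) (c : ℕ), 0 < c ∧
    (∀ g, δ g ^ c = 1) ∧ ∀ g, mat W g = (δ g : PadicAlgCl p) •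
      ((Q * R g * Q⁻¹ : GL (Fin m) (PadicAlgCl p)) : Matrix (Fin m) (Fin m) (PadicAlgCl p))

end rep

/-- **Main result.** -/
theorem result (f : ℕ → ℕ) :
    ∃ (T : ℕ → ℕ) (k L : IntermediateField ℚ (AlgebraicClosure ℚ)),
      (∀ i, (T i).Prime ∧ T i < T (i + 1) ∧ f (T i) < T (i + 1)) ∧
      UnramifiedTower k L ∧ (∀ i, SplitsCompletely (T i) L) ∧
      ∀ (K : IntermediateField ℚ (AlgebraicClosure ℚ)), FiniteDimensional ℚ K →
        ∀ (p : ℕ) [Fact p.Prime] (m : ℕ) (R : K.fixingSubgroup →* GL (Fin m) (PadicAlgCl p)),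
          Continuous R → AlmostUnramified R →
          (∀ (m' : ℕ) (W : K.fixingSubgroup →* GL (Fin m') (PadicAlgCl p)),
            Continuous W → AlmostUnramified W →
            (PowersDivide T R W ↔ ∃ U : Subgroup K.fixingSubgroup,
              IsOpen (U : Set K.fixingSubgroup) ∧
                ∀ g ∈ U, (mat R g).charpoly ∣ (mat W g).charpoly) ∧
            (PowersDivide T R W → Irreducible ⊤ R → ∃ U : Subgroup K.fixingSubgroup,
              IsOpen (U : Set K.fixingSubgroup) ∧ ∀ g ∈ U, W g = 1 → R g = 1)) ∧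
          ∀ (W : K.fixingSubgroup →* GL (Fin m) (PadicAlgCl p)),
            Continuous W → AlmostUnramified W →
            (Semisimple R → Semisimple W → (PowersDivide T R W ↔ PotentiallyIsomorphic R W)) ∧
            ((∀ U : Subgroup K.fixingSubgroup, IsOpen (U : Set K.fixingSubgroup) →
              Irreducible U R) → (PowersDivide T R W ↔ FiniteOrderTwist R W)) := by
  obtain ⟨T, k, L, hT1, hT2, htow, hrep⟩ := Pool.Agent.Y802.MO.final3
    Pool.Agent.Y903.MO.t_RES Pool.Agent.Y406.MO.t_CHA f
  refine ⟨T, k, L, fun i => ⟨hT1 i, ?_, ?_⟩, ⟨⟨htow.rank, htow.sqrt⟩, htow.le, htow.inf, htow.galois,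
    htow.unr, htow.real, htow.two⟩, ?_, ?_⟩
  · have := hT2 i
    omega
  · have := hT2 i
    have := (hT1 i).pos
    omega
  · intro i P hP hTP σ hσ
    rcases hσ with hσ | hσ
    · exact htow.unrT i P hP hTP σ hσ
    · exact htow.split i P hP hTP σ hσ
  · intro K hK p _ m R hR hSR
    have hopen := K.fixingSubgroup_isOpen
    have hunr : ∀ (m' : ℕ) (W : K.fixingSubgroup →* GL (Fin m') (PadicAlgCl p)),
        AlmostUnramified W → Pool.Agent.Y802.MO.Unr W := by
      rintro m' W ⟨S, hS⟩
      exact ⟨S, fun q hq hqS P hP hqP τ hτ hτP => hS q hq hqS P hP hqP ⟨τ, hτ⟩ hτP⟩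
    have hdiv : ∀ (m' : ℕ) (W : K.fixingSubgroup →* GL (Fin m') (PadicAlgCl p)),
        PowersDivide T R W ↔ Pool.Agent.Y802.MO.DivT T R W := by
      intro m' W
      constructor
      · rintro ⟨i0, hi0⟩
        refine ⟨i0, fun i hi P hP hTP σ hσ hσP => ?_⟩
        obtain ⟨a, ha, h⟩ := hi0 i hi P hP hTP ⟨σ, hσ⟩ hσP
        exact ⟨a, ha.ne', h⟩
      · rintro ⟨i0, hi0⟩
        refine ⟨i0, fun i hi P hP hTP σ hσP => ?_⟩
        obtain ⟨a, ha, h⟩ := hi0 i hi P hP hTP σ σ.2 hσP
        exact ⟨a, Nat.pos_of_ne_zero ha, h⟩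
    obtain ⟨h1, h2, h3⟩ := hrep K.fixingSubgroup hopen p m R hR (hunr m R hSR)
    have hback : ∀ (m' : ℕ) (W : K.fixingSubgroup →* GL (Fin m') (PadicAlgCl p)),
        (∃ U : Subgroup K.fixingSubgroup, IsOpen (U : Set K.fixingSubgroup) ∧
          ∀ g ∈ U, (mat R g).charpoly ∣ (mat W g).charpoly) → PowersDivide T R W := by
      rintro m' W ⟨U, hU, h⟩
      rw [hdiv]
      exact Pool.Agent.Y802.MO.back hopen T R W U hU h
    refine ⟨?_, ?_⟩
    · intro m' W hW hSW
      refine ⟨⟨fun h => ?_, hback m' W⟩, fun h hirr => ?_⟩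
      · obtain ⟨U, hU, h4, -⟩ := h1 m' W hW (hunr m' W hSW) ((hdiv m' W).1 h)
        exact ⟨U, hU, h4⟩
      · obtain ⟨U, hU, -, h4⟩ := h1 m' W hW (hunr m' W hSW) ((hdiv m' W).1 h)
        exact ⟨U, hU, h4 hirr.1 fun V hV => hirr.2 V fun g _ => hV g⟩
    · intro W hW hSW
      refine ⟨fun hs1 hs2 => ⟨fun h => ?_, ?_⟩, fun hirr => ⟨fun h => ?_, ?_⟩⟩
      · refine h2 W hW (hunr m W hSW) ?_ ?_ ((hdiv m W).1 h)
        · intro V hV
          obtain ⟨V', h4, h5⟩ := hs1 V fun g _ => hV g
          exact ⟨V', fun g => h4 g trivial, h5⟩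
        · intro V hV
          obtain ⟨V', h4, h5⟩ := hs2 V fun g _ => hV g
          exact ⟨V', fun g => h4 g trivial, h5⟩
      · rintro ⟨U, hU, Q, hQ⟩
        refine hback m W ⟨U, hU, fun g hg => ?_⟩
        have h4 : mat W g = (Q : Matrix (Fin m) (Fin m) (PadicAlgCl p)) * mat R g *
            ((Q⁻¹ : GL (Fin m) (PadicAlgCl p)) : Matrix (Fin m) (Fin m) (PadicAlgCl p)) := by
          unfold mat
          rw [hQ g hg, Units.val_mul, Units.val_mul]
        rw [h4, Matrix.coe_units_inv, Matrix.charpoly_units_conj]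
      · have h0 : 0 < m := (hirr ⊤ isOpen_univ).1
        exact h3 h0 (fun U hU V hV => (hirr U hU).2 V hV) W hW (hunr m W hSW) ((hdiv m W).1 h)
      · rintro ⟨Q, δ, c, hc, hδ, h4⟩
        rw [hdiv]
        exact Pool.Agent.Y802.MO.twist_div T R W Q δ c hc hδ h4

end Pool.Agent.Results.MP_adf543_nt.SparseMultiplicityOne
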